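import Pool.Agent.H47.ST.Targets

/-!
# The row MIR: the weight of the mirror image
-/

set_option autoImplicit false

namespace Pool.Agent.H56.STK

open Finset Pool.Agent.H47.ST

theorem wt_symm (R : ℕ) (W U : ℝ) (e hl r hr : ℕ) (he : e < 2) :
    wt R W U (1 - e) hr r hl = wt R W U e hl r hr := by
  have h1 : 1 - (1 - e) = e := by omega
  have hL : Lh (1 - e) hr r hl = Lh e hl r hr := by
    unfold Lh
    rw [h1, min_comm]
  have hw : walker hr r hl ↔ walker hl r hr := by
    unfold walker
    exact or_comm
  have hp : pend (1 - e) hr r hl ↔ pend e hl r hr := by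
    unfold pend
    rw [h1]
    exact or_comm
  unfold wt
  rw [hL]
  simp only [hw, hp]

theorem pf_MIR (h1 : T_APP) (h2 : T_TOP) : T_MIR := by
  intro R W U e hl hr X he
  obtain ⟨_, _, t3, _⟩ := h2
  induction X generalizing hl hr with
  | nil => rfl
  | cons r B ih =>
    rw [List.reverse_cons, h1]
    have e1 : top 0 [r] = r + 1 := by simp [top]
    have e2 : phC R W U (1 - e) (max hr (top 0 B.reverse)) [r] hl =
        wt R W U (1 - e) (max hr (top 0 B)) r hl := by
      rw [t3]
      simp [phC, top]
    rw [e1, ih, e2, wt_symm R W U e hl r _ he]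
    change _ = wt R W U e hl r (max (top 0 B) hr) * phC R W U e (max hl (r + 1)) B hr
    rw [max_comm (r + 1) hl, max_comm hr (top 0 B), mul_comm]

end Pool.Agent.H56.STK
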